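import Mathlib

open Module

namespace Pool.Agent.Results.MP_8ee885_co.ParityCriterion

/-- The rank of an alternating bilinear form is even. -/
theorem even_finrank_range_of_isAlt {K : Type*} [Field K] :
    ∀ (n : ℕ) {V : Type*} [AddCommGroup V] [Module K V] [FiniteDimensional K V]
      (B : LinearMap.BilinForm K V), B.IsAlt → finrank K V = n →
      Even (finrank K (LinearMap.range B)) := by
  intro n
  induction n using Nat.strong_induction_on with
  | _ n ih =>
    intro V _ _ _ B hB hn
    by_cases h0 : ∃ x y, B x y ≠ 0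
    swap
    · push Not at h0
      have : B = 0 := by ext x y; exact h0 x y
      rw [this, show LinearMap.range (0 : LinearMap.BilinForm K V) = ⊥ from LinearMap.range_zero,
        finrank_bot]
      exact Even.zero
    obtain ⟨x, y', hxy'⟩ := h0
    -- normalise
    obtain ⟨y, hxy⟩ : ∃ y, B x y = 1 := ⟨(B x y')⁻¹ • y', by simp [hxy']⟩
    have hyx : B y x = -1 := by
      have := hB.neg_eq x y
      rw [← this, hxy]
    have hxx : B x x = 0 := hB.self_eq_zero x
    have hyy : B y y = 0 := hB.self_eq_zero y
    -- the projection to K × K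
    let φ : V →ₗ[K] K × K := (B.flip x).prod (B.flip y)
    have hφ : ∀ v, φ v = (B v x, B v y) := fun v => rfl
    have hφs : Function.Surjective φ := by
      rintro ⟨a, b⟩
      refine ⟨b • x - a • y, ?_⟩
      rw [hφ]
      simp [hxx, hyy, hxy, hyx]
    let U : Submodule K V := LinearMap.ker φ
    have hU : ∀ v, v ∈ U ↔ B v x = 0 ∧ B v y = 0 := by
      intro v
      simp only [U, LinearMap.mem_ker, hφ, Prod.mk_eq_zero]
    have hdim : finrank K U + 2 = finrank K V := by
      have h1 := LinearMap.finrank_range_add_finrank_ker φ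
      rw [LinearMap.range_eq_top.2 hφs, finrank_top] at h1
      simp only [finrank_prod, finrank_self] at h1
      change finrank K (LinearMap.ker φ) + 2 = _
      omega
    let B' : LinearMap.BilinForm K U := B.restrict U
    have hB'alt : B'.IsAlt := fun u => hB u
    have hrefl := hB.isRefl
    -- kernel of B' is the comap of the kernel of B
    have hker : LinearMap.ker B' = (LinearMap.ker B).comap U.subtype := by
      ext u
      simp only [LinearMap.mem_ker, Submodule.mem_comap, Submodule.coe_subtype]
      constructor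
      · intro hu
        ext w
        have hw : w - B w y • x + B w x • y ∈ U := by
          rw [hU]
          constructor
          · simp [hxx, hyx]
          · simp [hyy, hxy]
        have h1 : B u (w - B w y • x + B w x • y) = 0 := by
          have := LinearMap.congr_fun hu ⟨_, hw⟩
          simpa [B'] using this
        have hu2 := (hU u).1 u.2
        simpa [hu2.1, hu2.2] using h1
      · intro hu
        ext w
        simp [B', hu]
    have hle : LinearMap.ker B ≤ U := by
      intro v hv
      rw [hU]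
      rw [LinearMap.mem_ker] at hv
      simp [hv]
    have hkerdim : finrank K (LinearMap.ker B') = finrank K (LinearMap.ker B) := by
      rw [hker]
      exact (Submodule.comapSubtypeEquivOfLe hle).finrank_eq
    have e1 := LinearMap.finrank_range_add_finrank_ker B
    have e2 := LinearMap.finrank_range_add_finrank_ker B'
    have e3 := ih (finrank K U) (by omega) B' hB'alt rfl
    have e4 : finrank K (LinearMap.range B) = finrank K (LinearMap.range B') + 2 := by omega
    rw [e4]
    exact e3.add (by decide)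

/-- An alternating square matrix has even rank. -/
theorem even_rank {K ι : Type*} [Field K] [Fintype ι] [DecidableEq ι] (A : Matrix ι ι K)
    (hA : ∀ i j, A j i = - A i j) (hd : ∀ i, A i i = 0) : Even A.rank := by
  let B : LinearMap.BilinForm K (ι → K) := Matrix.toBilin' A
  have hB : ∀ x y, B x y = x ⬝ᵥ A.mulVec y := fun x y => Matrix.toBilin'_apply' A x y
  have hBalt : B.IsAlt := by
    intro x
    rw [hB]
    simp only [dotProduct, Matrix.mulVec, Finset.mul_sum]
    rw [← Finset.sum_product']
    refine Finset.sum_involution (fun p _ => (p.2, p.1)) ?_ ?_ ?_ ?_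
    · intro p _
      simp only [hA p.1 p.2]
      ring
    · intro p _ hp h
      apply hp
      have h12 : p.2 = p.1 := congrArg Prod.fst h
      rw [h12, hd]
      ring
    · intro p _
      simp
    · intro p _
      rfl
  have h := even_finrank_range_of_isAlt (finrank K (ι → K)) B hBalt rfl
  have hker : LinearMap.ker B = LinearMap.ker A.mulVecLin := by
    ext x
    simp only [LinearMap.mem_ker, Matrix.mulVecLin_apply]
    constructor
    · intro hx
      ext j
      have h1 : B x (Pi.single j 1) = 0 := by rw [hx]; rfl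
      rw [hB] at h1
      simp only [dotProduct, Matrix.mulVec, Pi.single_apply, mul_ite, mul_one, mul_zero,
        Finset.sum_ite_eq', Finset.mem_univ, if_true] at h1
      simp only [dotProduct, Matrix.mulVec, Pi.zero_apply]
      rw [← neg_eq_zero, ← Finset.sum_neg_distrib, ← h1]
      refine Finset.sum_congr rfl fun i _ => ?_
      rw [hA i j]
      ring
    · intro hx
      refine LinearMap.ext fun y => ?_
      rw [hB]
      have h2 : ∀ j, ∑ i, A j i * x i = 0 := fun j => congrFun hx j
      simp only [dotProduct, Matrix.mulVec, Finset.mul_sum]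
      rw [Finset.sum_comm]
      refine Finset.sum_eq_zero fun j _ => ?_
      calc ∑ i, x i * (A i j * y j) = - y j * ∑ i, A j i * x i := by
            rw [Finset.mul_sum]
            refine Finset.sum_congr rfl fun i _ => ?_
            rw [hA j i]
            ring
        _ = 0 := by rw [h2]; ring
  have e1 := LinearMap.finrank_range_add_finrank_ker B
  have e2 := LinearMap.finrank_range_add_finrank_ker A.mulVecLin
  rw [hker] at e1
  have e3 : A.rank = finrank K (LinearMap.range B) := by
    rw [Matrix.rank]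
    omega
  rw [e3]
  exact h


/-! ## Definitions -/

/-- Vectors of `F_2^r`. -/
abbrev Vec (r : ℕ) : Type := Fin r → ZMod 2

/-- The Laplacian of the Cayley multigraph of `F_2^r` with connection list `M`. -/
def lap {r : ℕ} (M : List (Vec r)) : Matrix (Vec r) (Vec r) ℤ := fun w w' =>
  if w = w' then (M.length : ℤ) else -((M.countP (fun v => decide (w + v = w')) : ℕ) : ℤ)

/-- The cokernel of the Laplacian `ℤ^(2^r) → ℤ^(2^r)`, as a quotient module. -/
abbrev CokQ {r : ℕ} (M : List (Vec r)) : Type :=
  (Vec r → ℤ) ⧸ LinearMap.range (lap M).mulVecLin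

/-- The cokernel of the Laplacian `ℤ^(2^r) → ℤ^(2^r)`, as an abelian group. -/
def Coker {r : ℕ} (M : List (Vec r)) : Type := CokQ M

noncomputable instance {r : ℕ} (M : List (Vec r)) : AddCommGroup (Coker M) :=
  Submodule.Quotient.addCommGroup (LinearMap.range (lap M).mulVecLin)

/-- The sandpile group `K(G)`: the torsion subgroup of the cokernel of the Laplacian. -/
def SandpileGroup {r : ℕ} (M : List (Vec r)) : Type := AddCommGroup.torsion (Coker M)

noncomputable instance {r : ℕ} (M : List (Vec r)) : AddCommGroup (SandpileGroup M) :=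
  AddSubgroup.toAddCommGroup (AddCommGroup.torsion (Coker M))

/-- `d(M)`: the dimension over `F_2` of `K(G) ⊗ Z/2Z`. -/
noncomputable def dim2 {r : ℕ} (M : List (Vec r)) : ℕ :=
  finrank (ZMod 2) (TensorProduct ℤ (ZMod 2) (SandpileGroup M))

/-- The eigenvalue `λ_u = n - Σ_i (-1)^(u · v_i)` of the Laplacian. -/
def eig {r : ℕ} (M : List (Vec r)) (u : Vec r) : ℤ :=
  (M.length : ℤ) - (M.map (fun v => (-1 : ℤ) ^ (ZMod.val (u ⬝ᵥ v)))).sum

/-- The vectors of `M` span `F_2^r`. -/
def Spans {r : ℕ} (M : List (Vec r)) : Prop :=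
  Submodule.span (ZMod 2) {v | v ∈ M} = ⊤

/-- The greatest common divisor of the multiplicities `μ_u = M.count u` is `1`: every common
divisor of them is `1`. -/
def GcdOne {r : ℕ} (M : List (Vec r)) : Prop :=
  ∀ k : ℕ, (∀ u : Vec r, k ∣ M.count u) → k = 1

/-- The standing assumptions: `r ≥ 1`, the vectors of `M` are nonzero, they span `F_2^r`, and the
greatest common divisor of the (positive) multiplicities is `1`. -/
structure Admissible {r : ℕ} (M : List (Vec r)) : Prop where
  pos : 1 ≤ r
  ne_zero : ∀ v ∈ M, v ≠ 0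
  span : Spans M
  gcd : GcdOne M

/-! ## The Laplacian as an operator -/

section Lap

variable {r : ℕ}

lemma lap_mulVec (M : List (Vec r)) (hM : ∀ v ∈ M, v ≠ 0) (f : Vec r → ℤ) (w : Vec r) :
    (lap M).mulVec f w = (M.map (fun v => f w - f (w + v))).sum := by
  induction M with
  | nil =>
    simp [lap, Matrix.mulVec, dotProduct]
  | cons v M ih =>
    have hv : v ≠ 0 := hM v (by simp)
    have ih' := ih (fun x hx => hM x (by simp [hx]))
    have hsplit : ∀ w', lap (v :: M) w w' =
        lap M w w' + ((if w = w' then 1 else 0) - (if w + v = w' then 1 else 0)) := by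
      intro w'
      unfold lap
      by_cases h1 : w = w'
      · have h2 : ¬ (w + v = w') := by
          rw [h1]
          intro h
          exact hv (by simpa using h)
        simp [h1, hv]
      · by_cases h2 : w + v = w'
        · simp [h1, h2]
          ring
        · simp [h1, h2]
    rw [List.map_cons, List.sum_cons, ← ih']
    simp only [Matrix.mulVec, dotProduct, hsplit, add_mul, sub_mul, Finset.sum_add_distrib,
      Finset.sum_sub_distrib, ite_mul, one_mul, zero_mul, Finset.sum_ite_eq, Finset.mem_univ,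
      if_true]
    ring

lemma sum_lap_mulVec (M : List (Vec r)) (hM : ∀ v ∈ M, v ≠ 0) (f : Vec r → ℤ) :
    ∑ w, (lap M).mulVec f w = 0 := by
  simp only [lap_mulVec M hM]
  clear hM
  induction M with
  | nil => simp
  | cons v M ih =>
    simp only [List.map_cons, List.sum_cons, Finset.sum_add_distrib, ih, add_zero,
      Finset.sum_sub_distrib]
    rw [sub_eq_zero]
    exact (Fintype.sum_equiv (Equiv.addRight v) _ _ (fun w => rfl)).symm

end Lap

/-! ## Characters -/

section Char

variable {r : ℕ}

/-- The sign of an element of `F_2`. -/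
def sgn (a : ZMod 2) : ℤ := if a = 0 then 1 else -1

lemma sgn_add (a b : ZMod 2) : sgn (a + b) = sgn a * sgn b := by
  revert a b
  decide

lemma sgn_eq (a : ZMod 2) : (-1 : ℤ) ^ (ZMod.val a) = sgn a := by
  revert a
  decide

/-- The character `χ_u`. -/
def chi (u w : Vec r) : ℤ := sgn (u ⬝ᵥ w)

lemma chi_add (u w w' : Vec r) : chi u (w + w') = chi u w * chi u w' := by
  unfold chi
  rw [dotProduct_add, sgn_add]

lemma chi_add' (u u' w : Vec r) : chi (u + u') w = chi u w * chi u' w := by
  unfold chi
  rw [add_dotProduct, sgn_add]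

lemma chi_zero (u : Vec r) : chi u 0 = 1 := by
  unfold chi
  simp [sgn]

lemma chi_zero' (u : Vec r) : chi 0 u = 1 := by
  unfold chi
  simp [sgn]

lemma chi_mul_self (u w : Vec r) : chi u w * chi u w = 1 := by
  rw [← chi_add]
  have : w + w = 0 := by
    ext i
    exact CharTwo.add_self_eq_zero (w i)
  rw [this, chi_zero]

lemma sum_chi (x : Vec r) : ∑ u, chi u x = if x = 0 then 2 ^ r else 0 := by
  by_cases hx : x = 0
  · subst hx
    simp [chi_zero]
  · rw [if_neg hx]
    obtain ⟨i, hi⟩ : ∃ i, x i ≠ 0 := by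
      by_contra h
      push Not at h
      exact hx (funext h)
    have hi1 : x i = 1 := by
      revert hi
      generalize x i = a
      revert a
      decide
    have h1 : ∑ u, chi u x = ∑ u, chi (u + Pi.single i 1) x :=
      (Fintype.sum_equiv (Equiv.addRight (Pi.single i 1)) _ _ (fun w => rfl)).symm
    have h2 : ∀ u : Vec r, chi (u + Pi.single i 1) x = - chi u x := by
      intro u
      rw [chi_add']
      have : chi (Pi.single i 1) x = -1 := by
        unfold chi
        rw [single_dotProduct, hi1]
        decide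
      rw [this]
      ring
    have h3 : ∑ u : Vec r, chi (u + Pi.single i 1) x = -∑ u : Vec r, chi u x := by
      rw [← Finset.sum_neg_distrib]
      exact Finset.sum_congr rfl (fun u _ => h2 u)
    linarith

lemma eig_eq (M : List (Vec r)) (u : Vec r) :
    eig M u = (M.map (fun v => 1 - chi u v)).sum := by
  unfold eig chi
  simp only [sgn_eq]
  induction M with
  | nil => simp
  | cons v M ih =>
    simp only [List.length_cons, List.map_cons, List.sum_cons] at ih ⊢
    push_cast
    linarith

lemma lap_chi (M : List (Vec r)) (hM : ∀ v ∈ M, v ≠ 0) (u : Vec r) :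
    (lap M).mulVec (chi u) = eig M u • chi u := by
  ext w
  rw [lap_mulVec M hM, eig_eq, Pi.smul_apply, smul_eq_mul]
  clear hM
  induction M with
  | nil => simp
  | cons v M ih =>
    rw [List.map_cons, List.sum_cons, ih, List.map_cons, List.sum_cons, chi_add]
    ring

lemma chi_le_one (u v : Vec r) : chi u v ≤ 1 := by
  unfold chi sgn
  split_ifs <;> norm_num

lemma eig_pos (M : List (Vec r)) (hs : Submodule.span (ZMod 2) {v | v ∈ M} = ⊤) (u : Vec r)
    (hu : u ≠ 0) : 0 < eig M u := by
  rw [eig_eq]
  -- some vector of `M` is not orthogonal to `u`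
  obtain ⟨v, hv, huv⟩ : ∃ v ∈ M, chi u v ≠ 1 := by
    by_contra hcon
    push Not at hcon
    have hort : ∀ v ∈ M, u ⬝ᵥ v = 0 := by
      intro v hv
      have := hcon v hv
      unfold chi sgn at this
      by_contra h
      rw [if_neg h] at this
      norm_num at this
    let φ : Vec r →ₗ[ZMod 2] ZMod 2 :=
      { toFun := fun v => u ⬝ᵥ v
        map_add' := fun a b => dotProduct_add u a b
        map_smul' := fun c a => dotProduct_smul c u a }
    have hker : Submodule.span (ZMod 2) {v | v ∈ M} ≤ LinearMap.ker φ := by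
      rw [Submodule.span_le]
      intro v hv
      exact hort v hv
    rw [hs] at hker
    apply hu
    ext i
    have : φ (Pi.single i 1) = 0 := hker (Submodule.mem_top)
    change u ⬝ᵥ (Pi.single i 1) = 0 at this
    simpa using this
  have hnn : ∀ x ∈ M.map (fun v => 1 - chi u v), 0 ≤ x := by
    intro x hx
    obtain ⟨v, -, rfl⟩ := List.mem_map.1 hx
    have := chi_le_one u v
    omega
  have hmem : 1 - chi u v ∈ M.map (fun v => 1 - chi u v) := List.mem_map.2 ⟨v, hv, rfl⟩
  have h1 := List.single_le_sum hnn _ hmem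
  have h2 := chi_le_one u v
  omega

end Char

/-! ## The torsion part of the cokernel -/

section Torsion

variable {r : ℕ} (M : List (Vec r))

/-- The torsion part of the cokernel, as a submodule. -/
abbrev sandpile : Submodule ℤ (CokQ M) := Submodule.torsion ℤ (CokQ M)

/-- The sum of coordinates, as a linear map on the cokernel. -/
noncomputable def eps (hM : ∀ v ∈ M, v ≠ 0) : CokQ M →ₗ[ℤ] ℤ :=
  Submodule.liftQ _ (∑ w, LinearMap.proj w) (by
    rintro _ ⟨f, rfl⟩
    rw [LinearMap.mem_ker]
    have := sum_lap_mulVec M hM f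
    simpa using this)

lemma eps_mk (hM : ∀ v ∈ M, v ≠ 0) (f : Vec r → ℤ) :
    eps M hM (Submodule.Quotient.mk f) = ∑ w, f w := by
  unfold eps
  rw [← Submodule.mkQ_apply, Submodule.mkQ_apply, Submodule.liftQ_apply]
  simp

/-- The class of the basis vector `δ_w`. -/
noncomputable def dlt (w : Vec r) : CokQ M := Submodule.Quotient.mk (Pi.single w 1)

lemma eps_dlt (hM : ∀ v ∈ M, v ≠ 0) (w : Vec r) : eps M hM (dlt M w) = 1 := by
  unfold dlt
  rw [eps_mk]
  simp

lemma mem_torsion_of_smul {x : CokQ M} {a : ℤ} (ha : a ≠ 0) (h : a • x ∈ sandpile M) :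
    x ∈ sandpile M := by
  rw [Submodule.mem_torsion_iff] at h ⊢
  obtain ⟨b, hb⟩ := h
  refine ⟨b * ⟨a, mem_nonZeroDivisors_of_ne_zero ha⟩, ?_⟩
  rw [mul_smul]
  exact hb

lemma chi_mem_torsion (hM : ∀ v ∈ M, v ≠ 0)
    (hs : Submodule.span (ZMod 2) {v | v ∈ M} = ⊤) (u : Vec r) (hu : u ≠ 0) :
    (Submodule.Quotient.mk (chi u) : CokQ M) ∈ sandpile M := by
  apply mem_torsion_of_smul M (a := eig M u) (eig_pos M hs u hu).ne'
  have : eig M u • (Submodule.Quotient.mk (chi u) : CokQ M) = 0 := by
    rw [← Submodule.Quotient.mk_smul, Submodule.Quotient.mk_eq_zero]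
    exact ⟨chi u, by rw [Matrix.mulVecLin_apply, lap_chi M hM]⟩
  rw [this]
  exact Submodule.zero_mem _

lemma dlt_sub_mem (hM : ∀ v ∈ M, v ≠ 0)
    (hs : Submodule.span (ZMod 2) {v | v ∈ M} = ⊤) (w : Vec r) :
    dlt M w - dlt M 0 ∈ sandpile M := by
  apply mem_torsion_of_smul M (a := 2 ^ r) (by positivity)
  have h1 : (2 ^ r : ℤ) • (dlt M w - dlt M 0) =
      ∑ u, (chi u w - 1) • (Submodule.Quotient.mk (chi u) : CokQ M) := by
    unfold dlt
    rw [← Submodule.Quotient.mk_sub, ← Submodule.Quotient.mk_smul]
    simp only [← Submodule.Quotient.mk_smul]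
    rw [← Submodule.mkQ_apply]
    simp only [← Submodule.mkQ_apply]
    rw [← map_sum]
    congr 1
    ext x
    have e1 : ∀ y : Vec r, ∑ u, chi u y * chi u x = if x = y then 2 ^ r else 0 := by
      intro y
      simp only [← chi_add]
      rw [sum_chi]
      congr 1
      apply propext
      constructor
      · intro h
        have h2 : x + x = 0 := by
          ext i
          exact CharTwo.add_self_eq_zero (x i)
        have h3 : y = x := by
          calc y = y + (x + x) := by rw [h2, add_zero]
            _ = (y + x) + x := by rw [add_assoc]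
            _ = x := by rw [h, zero_add]
        exact h3.symm
      · rintro rfl
        ext i
        exact CharTwo.add_self_eq_zero (x i)
    have e2 := e1 w
    have e3 := e1 0
    simp only [chi_zero] at e3
    simp only [Finset.sum_apply, Pi.smul_apply, Pi.sub_apply, smul_eq_mul, sub_mul,
      Finset.sum_sub_distrib, e2, e3, Pi.single_apply]
    split_ifs <;> ring
  rw [h1]
  refine Submodule.sum_mem _ fun u _ => ?_
  by_cases hu : u = 0
  · subst hu
    rw [chi_zero']
    simp
  · exact Submodule.smul_mem _ _ (chi_mem_torsion M hM hs u hu)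

lemma mem_torsion_iff_eps (hM : ∀ v ∈ M, v ≠ 0)
    (hs : Submodule.span (ZMod 2) {v | v ∈ M} = ⊤) (x : CokQ M) :
    x ∈ sandpile M ↔ eps M hM x = 0 := by
  constructor
  · intro h
    rw [Submodule.mem_torsion_iff] at h
    obtain ⟨b, hb⟩ := h
    have h1 : eps M hM (b • x) = 0 := by rw [hb, map_zero]
    have h2 : (b : ℤ) * eps M hM x = 0 := by
      have h3 : b • x = (b : ℤ) • x := rfl
      rw [h3, map_smul, smul_eq_mul] at h1
      exact h1
    rcases mul_eq_zero.1 h2 with h | h
    · exact absurd h (nonZeroDivisors.ne_zero b.2)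
    · exact h
  · intro h
    obtain ⟨f, rfl⟩ := Submodule.Quotient.mk_surjective _ x
    rw [eps_mk] at h
    have h1 : (Submodule.Quotient.mk f : CokQ M) = ∑ w, f w • (dlt M w - dlt M 0) := by
      simp only [smul_sub, Finset.sum_sub_distrib]
      rw [← Finset.sum_smul, h, zero_smul, sub_zero]
      unfold dlt
      simp only [← Submodule.mkQ_apply, ← map_smul]
      rw [← map_sum]
      congr 1
      ext x
      simp [Finset.sum_apply, Pi.single_apply]
    rw [h1]
    exact Submodule.sum_mem _ fun w _ => Submodule.smul_mem _ _ (dlt_sub_mem M hM hs w)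

/-- The cokernel splits as torsion part plus `ℤ`. -/
noncomputable def cokerEquiv (hM : ∀ v ∈ M, v ≠ 0)
    (hs : Submodule.span (ZMod 2) {v | v ∈ M} = ⊤) : (sandpile M × ℤ) ≃ₗ[ℤ] CokQ M :=
  LinearEquiv.ofBijective
    ((sandpile M).subtype.coprod ((LinearMap.toSpanSingleton ℤ (CokQ M) (dlt M 0))))
    (by
      constructor
      · rw [injective_iff_map_eq_zero]
        rintro ⟨k, n⟩ h
        simp only [LinearMap.coprod_apply, Submodule.subtype_apply,
          LinearMap.toSpanSingleton_apply] at h
        have h1 := congrArg (eps M hM) h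
        rw [map_add, map_smul, eps_dlt, (mem_torsion_iff_eps M hM hs _).1 k.2, map_zero] at h1
        have hn : n = 0 := by simpa using h1
        subst hn
        simp at h
        simp [h]
      · intro x
        refine ⟨(⟨x - eps M hM x • dlt M 0, ?_⟩, eps M hM x), ?_⟩
        · rw [mem_torsion_iff_eps M hM hs, map_sub, map_smul, eps_dlt]
          simp
        · simp)

end Torsion

/-! ## Reduction modulo two -/

section Mod2

variable {r : ℕ} (M : List (Vec r))

open TensorProduct

/-- The Laplacian modulo two. -/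
def lap2 : Matrix (Vec r) (Vec r) (ZMod 2) := (lap M).map (algebraMap ℤ (ZMod 2))

lemma finrank_coker_add_rank :
    finrank (ZMod 2) (ZMod 2 ⊗[ℤ] CokQ M) + (lap2 M).rank = 2 ^ r := by
  classical
  let f : (Vec r → ℤ) →ₗ[ℤ] (Vec r → ℤ) := (lap M).mulVecLin
  let q : (Vec r → ℤ) →ₗ[ℤ] CokQ M := (LinearMap.range f).mkQ
  have hq : Function.Surjective q := Submodule.mkQ_surjective _
  have hfq : Function.Exact f q := LinearMap.exact_map_mkQ_range f
  have hex : Function.Exact (LinearMap.lTensor (ZMod 2) f) (LinearMap.lTensor (ZMod 2) q) :=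
    lTensor_exact (ZMod 2) hfq hq
  have hker : LinearMap.ker (q.baseChange (ZMod 2)) = LinearMap.range (f.baseChange (ZMod 2)) := by
    ext x
    rw [LinearMap.mem_ker, LinearMap.mem_range]
    exact hex x
  have hsurj : Function.Surjective (q.baseChange (ZMod 2)) :=
    LinearMap.lTensor_surjective (ZMod 2) hq
  have h1 := LinearMap.finrank_range_add_finrank_ker (q.baseChange (ZMod 2))
  have h0 : finrank (ZMod 2) (ZMod 2 ⊗[ℤ] (Vec r → ℤ)) = 2 ^ r := by
    rw [Module.finrank_baseChange, Module.finrank_fintype_fun_eq_card]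
    simp
  rw [LinearMap.range_eq_top.2 hsurj, finrank_top, hker, h0] at h1
  have h2 : (lap2 M).rank = finrank (ZMod 2) (LinearMap.range (f.baseChange (ZMod 2))) := by
    have h3 := LinearMap.toMatrix_baseChange (ZMod 2) f (Pi.basisFun ℤ (Vec r))
      (Pi.basisFun ℤ (Vec r))
    have h4 : LinearMap.toMatrix (Pi.basisFun ℤ (Vec r)) (Pi.basisFun ℤ (Vec r)) f = lap M := by
      rw [LinearMap.toMatrix_eq_toMatrix']
      exact LinearMap.toMatrix'_toLin' (lap M)
    rw [h4] at h3
    rw [Matrix.rank_eq_finrank_range_toLin (lap2 M)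
      (Algebra.TensorProduct.basis (ZMod 2) (Pi.basisFun ℤ (Vec r)))
      (Algebra.TensorProduct.basis (ZMod 2) (Pi.basisFun ℤ (Vec r)))]
    unfold lap2
    rw [← h3, Matrix.toLin_toMatrix]
  rw [h2, h1]

lemma finrank_coker_eq (hM : ∀ v ∈ M, v ≠ 0)
    (hs : Submodule.span (ZMod 2) {v | v ∈ M} = ⊤) :
    finrank (ZMod 2) (ZMod 2 ⊗[ℤ] CokQ M) = dim2 M + 1 := by
  have hfree : Module.Free (ZMod 2) (ZMod 2 ⊗[ℤ] (sandpile M)) := Module.Free.of_divisionRing _ _
  have hd : finrank (ZMod 2) (ZMod 2 ⊗[ℤ] (sandpile M)) = dim2 M := by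
    have h1 : (Submodule.torsion ℤ (Coker M)).toAddSubgroup = AddCommGroup.torsion (Coker M) :=
      Submodule.torsion_int
    let e : sandpile M ≃+ SandpileGroup M := AddEquiv.addSubgroupCongr h1
    exact (LinearEquiv.baseChange ℤ (ZMod 2) _ _ e.toIntLinearEquiv).finrank_eq
  rw [← (LinearEquiv.baseChange ℤ (ZMod 2) _ _ (cokerEquiv M hM hs)).finrank_eq,
    (TensorProduct.prodRight ℤ (ZMod 2) (ZMod 2) (sandpile M) ℤ).finrank_eq,
    Module.finrank_prod, (TensorProduct.AlgebraTensorModule.rid ℤ (ZMod 2) (ZMod 2)).finrank_eq,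
    finrank_self, hd]

end Mod2

/-! ## Parity -/

section Parity

variable {r : ℕ} (M : List (Vec r))

/-- The coefficients modulo two of the Laplacian as a convolution operator. -/
def cf (u : Vec r) : ZMod 2 := if u = 0 then (M.length : ZMod 2) else (M.count u : ZMod 2)

lemma add_self_vec (w : Vec r) : w + w = 0 := by
  ext i
  exact CharTwo.add_self_eq_zero (w i)

lemma add_eq_iff (w v w' : Vec r) : w + v = w' ↔ v = w + w' := by
  constructor
  · rintro rfl
    rw [← add_assoc, add_self_vec, zero_add]
  · rintro rfl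
    rw [← add_assoc, add_self_vec, zero_add]

lemma lap2_apply (w w' : Vec r) : lap2 M w w' = cf M (w + w') := by
  unfold lap2 lap cf
  rw [Matrix.map_apply]
  by_cases h : w = w'
  · subst h
    simp [add_self_vec]
  · have h' : w + w' ≠ 0 := by
      intro h0
      apply h
      have := (add_eq_iff w w' 0).1 h0
      rw [add_zero] at this
      exact this.symm
    rw [if_neg h, if_neg h']
    have hc : M.countP (fun v => decide (w + v = w')) = M.count (w + w') := by
      rw [List.count_eq_countP]
      apply List.countP_congr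
      intro v _
      simp [add_eq_iff]
    rw [hc]
    simp only [algebraMap_int_eq, eq_intCast, Int.cast_neg, Int.cast_natCast]
    exact CharTwo.neg_eq _

lemma even_rank_lap2 (u₀ : Vec r) (h : cf M u₀ = 0) : Even (lap2 M).rank := by
  have h1 : (lap2 M).rank = ((lap2 M).submatrix (Equiv.refl _) (Equiv.addRight u₀)).rank :=
    (Matrix.rank_submatrix _ _ _).symm
  rw [h1]
  apply even_rank
  · intro i j
    simp only [Matrix.submatrix_apply, Equiv.refl_apply, Equiv.coe_addRight, lap2_apply]
    rw [CharTwo.neg_eq]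
    congr 1
    abel
  · intro i
    simp only [Matrix.submatrix_apply, Equiv.refl_apply, Equiv.coe_addRight, lap2_apply]
    rw [← add_assoc, add_self_vec, zero_add, h]

lemma rank_lap2_eq_one (h : ∀ u, cf M u = 1) : (lap2 M).rank = 1 := by
  rw [Matrix.rank_eq_finrank_span_cols]
  have h1 : Set.range (lap2 M).col = {fun _ => 1} := by
    ext f
    simp only [Set.mem_range, Set.mem_singleton_iff]
    constructor
    · rintro ⟨w, rfl⟩
      ext w'
      rw [Matrix.col_apply, lap2_apply, h]
    · rintro rfl
      refine ⟨0, ?_⟩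
      ext w'
      rw [Matrix.col_apply, lap2_apply, h]
  rw [h1]
  apply finrank_span_singleton
  intro h0
  have := congrFun h0 0
  simp at this

lemma length_eq_sum_count (hM : ∀ v ∈ M, v ≠ 0) :
    M.length = ∑ u ∈ Finset.univ.erase (0 : Vec r), M.count u := by
  have h1 : M.length = ∑ u : Vec r, M.count u := by
    rw [← Multiset.coe_card, ← Multiset.sum_count_eq_card (s := Finset.univ) (m := (M : Multiset (Vec r)))]
    · simp
    · intro a _
      exact Finset.mem_univ a
  rw [h1, ← Finset.add_sum_erase _ _ (Finset.mem_univ (0 : Vec r))]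
  have h2 : M.count 0 = 0 := by
    rw [List.count_eq_zero]
    intro h
    exact hM 0 h rfl
  rw [h2, zero_add]

lemma cf_eq_one (hr : 1 ≤ r) (hM : ∀ v ∈ M, v ≠ 0) (h : ∀ u ≠ 0, Odd (M.count u)) (u : Vec r) :
    cf M u = 1 := by
  unfold cf
  by_cases hu : u = 0
  · rw [if_pos hu]
    have hodd : Odd M.length := by
      rw [length_eq_sum_count M hM, Finset.odd_sum_iff_odd_card_odd]
      have : (Finset.univ.erase (0 : Vec r)).filter (fun u => Odd (M.count u)) =
          Finset.univ.erase 0 := by
        apply Finset.filter_true_of_mem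
        intro u hu
        exact h u (Finset.ne_of_mem_erase hu)
      rw [this, Finset.card_erase_of_mem (Finset.mem_univ _), Finset.card_univ]
      simp only [Fintype.card_pi, ZMod.card, Finset.prod_const, Finset.card_univ,
        Fintype.card_fin]
      have h2 : Even (2 ^ r) := (Nat.even_pow.2 ⟨by decide, by omega⟩)
      have h3 : 1 ≤ 2 ^ r := Nat.one_le_two_pow
      exact Nat.Even.sub_odd h3 h2 odd_one
    exact (ZMod.natCast_eq_one_iff_odd).2 hodd
  · rw [if_neg hu]
    exact (ZMod.natCast_eq_one_iff_odd).2 (h u hu)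

theorem dim2_of_all_odd (hM : Admissible M) (h : ∀ u ≠ 0, Odd (M.count u)) :
    dim2 M = 2 ^ r - 2 := by
  have h1 := finrank_coker_add_rank M
  rw [finrank_coker_eq M hM.ne_zero hM.span,
    rank_lap2_eq_one M (cf_eq_one M hM.pos hM.ne_zero h)] at h1
  omega

theorem odd_dim2 (hM : Admissible M) (h : ∃ u ≠ 0, Even (M.count u)) : Odd (dim2 M) := by
  obtain ⟨u, hu, he⟩ := h
  have h1 := finrank_coker_add_rank M
  rw [finrank_coker_eq M hM.ne_zero hM.span] at h1
  have h2 : Even (lap2 M).rank := by
    apply even_rank_lap2 M u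
    unfold cf
    rw [if_neg hu]
    exact (ZMod.natCast_eq_zero_iff_even).2 he
  have h3 : Even (2 ^ r) := (Nat.even_pow.2 ⟨by decide, by have := hM.pos; omega⟩)
  rw [← h1] at h3
  have h4 : Even (dim2 M + 1) := (Nat.even_add.1 h3).2 h2
  rw [Nat.even_add_one, Nat.not_even_iff_odd] at h4
  exact h4

end Parity

/-! ## Valuations of the eigenvalues -/

section Valuation

variable {r : ℕ} (M : List (Vec r))

lemma inversion (v : Vec r) (hv : v ≠ 0) :
    ∑ u, chi u v * eig M u = -(2 ^ r * (M.count v : ℤ)) := by
  simp only [eig_eq]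
  induction M with
  | nil => simp
  | cons x M ih =>
    simp only [List.map_cons, List.sum_cons, mul_add, Finset.sum_add_distrib, ih]
    have h1 : ∑ u, chi u v * (1 - chi u x) = -(if x = v then 2 ^ r else 0) := by
      simp only [mul_sub, mul_one, Finset.sum_sub_distrib, ← chi_add, sum_chi]
      rw [if_neg hv]
      have : (v + x = 0) ↔ (x = v) := by
        rw [add_eq_iff, add_zero]
      simp only [this]
      ring
    rw [h1, List.count_cons]
    by_cases hx : x = v
    · simp only [hx, if_true, beq_self_eq_true]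
      push_cast
      ring
    · simp [hx]

lemma odd_of_val (a : ℤ) (t : ℕ) (ha : a ≠ 0) (h : padicValInt 2 a = t) :
    ∃ o : ℤ, Odd o ∧ a = 2 ^ t * o := by
  have h1 : (2 : ℤ) ^ t ∣ a := by
    have := (padicValInt_dvd_iff (p := 2) t a).2 (Or.inr h.ge)
    exact_mod_cast this
  obtain ⟨o, ho⟩ := h1
  refine ⟨o, ?_, ho⟩
  rw [← Int.not_even_iff_odd]
  rintro ⟨k, hk⟩
  have h2 : ((2 : ℕ) : ℤ) ^ (t + 1) ∣ a := by
    refine ⟨k, ?_⟩
    rw [ho, hk]
    push_cast
    ring
  rcases (padicValInt_dvd_iff (p := 2) (t + 1) a).1 h2 with h3 | h3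
  · exact ha h3
  · omega

lemma chi_cast (u v : Vec r) : ((chi u v : ℤ) : ZMod 2) = 1 := by
  unfold chi sgn
  split_ifs
  · simp
  · simp only [Int.cast_neg, Int.cast_one]
    exact CharTwo.neg_eq _

theorem all_odd_of_val (hM : Admissible M)
    (h : ∀ u ≠ 0, ∀ u' ≠ 0, padicValInt 2 (eig M u) = padicValInt 2 (eig M u')) :
    ∀ v ≠ 0, Odd (M.count v) := by
  have hr := hM.pos
  have hne : (Pi.single ⟨0, hr⟩ 1 : Vec r) ≠ 0 := by
    intro h0
    have := congrFun h0 ⟨0, hr⟩
    simp at this
  set t := padicValInt 2 (eig M (Pi.single ⟨0, hr⟩ 1)) with ht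
  have h1 : ∀ u : Vec r, u ≠ 0 → ∃ o : ℤ, Odd o ∧ eig M u = 2 ^ t * o := by
    intro u hu
    exact odd_of_val _ _ (eig_pos M hM.span u hu).ne' (h u hu _ hne)
  choose! o ho1 ho2 using h1
  have heig0 : eig M 0 = 0 := by
    rw [eig_eq]
    simp [chi_zero']
  -- the key equation
  have key : ∀ v : Vec r, v ≠ 0 → ∃ S : ℤ, Odd S ∧ 2 ^ r * (M.count v : ℤ) = 2 ^ t * S := by
    intro v hv
    refine ⟨-∑ u ∈ Finset.univ.erase 0, chi u v * o u, ?_, ?_⟩
    · rw [odd_neg, ← Int.not_even_iff_odd, ← ZMod.intCast_eq_zero_iff_even]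
      push_cast
      have h2 : ∑ u ∈ Finset.univ.erase (0 : Vec r), ((chi u v : ℤ) : ZMod 2) * (o u : ZMod 2) =
          ∑ u ∈ Finset.univ.erase (0 : Vec r), 1 := by
        refine Finset.sum_congr rfl fun u hu => ?_
        have h3 := ho1 u (Finset.ne_of_mem_erase hu)
        rw [chi_cast, one_mul]
        obtain ⟨k, hk⟩ := h3
        rw [hk]
        push_cast
        have : (2 : ZMod 2) = 0 := by decide
        rw [this]
        ring
      rw [h2, Finset.sum_const, Finset.card_erase_of_mem (Finset.mem_univ _), Finset.card_univ]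
      simp only [Fintype.card_pi, ZMod.card, Finset.prod_const, Finset.card_univ,
        Fintype.card_fin, nsmul_eq_mul, mul_one]
      have h2 : Even (2 ^ r) := (Nat.even_pow.2 ⟨by decide, by omega⟩)
      have h3 : 1 ≤ 2 ^ r := Nat.one_le_two_pow
      have h4 : Odd (2 ^ r - 1) := Nat.Even.sub_odd h3 h2 odd_one
      rw [(ZMod.natCast_eq_one_iff_odd).2 h4]
      decide
    · have h2 := inversion M v hv
      rw [← Finset.add_sum_erase _ _ (Finset.mem_univ (0 : Vec r)), heig0, mul_zero,
        zero_add] at h2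
      have h3 : ∑ u ∈ Finset.univ.erase (0 : Vec r), chi u v * eig M u =
          2 ^ t * ∑ u ∈ Finset.univ.erase (0 : Vec r), chi u v * o u := by
        rw [Finset.mul_sum]
        refine Finset.sum_congr rfl fun u hu => ?_
        rw [ho2 u (Finset.ne_of_mem_erase hu)]
        ring
      rw [h3] at h2
      linarith
  -- compare `t` and `r`
  rcases lt_trichotomy t r with hlt | heq | hgt
  · exfalso
    obtain ⟨S, hS, hS2⟩ := key _ hne
    obtain ⟨k, hk⟩ := Nat.exists_eq_add_of_lt hlt
    have hpow : (2 : ℤ) ^ r = 2 ^ t * 2 ^ (k + 1) := by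
      rw [← pow_add]
      congr 1
    rw [hpow] at hS2
    have h2 : S = 2 * (2 ^ k * (M.count (Pi.single ⟨0, hr⟩ 1 : Vec r) : ℤ)) := by
      have h3 : (2 : ℤ) ^ t ≠ 0 := by positivity
      apply mul_left_cancel₀ h3
      rw [← hS2]
      ring
    rw [h2] at hS
    exact (Int.not_even_iff_odd.2 hS) ⟨_, two_mul _⟩
  · intro v hv
    obtain ⟨S, hS, hS2⟩ := key v hv
    rw [heq] at hS2
    have h3 : (2 : ℤ) ^ r ≠ 0 := by positivity
    have h4 := mul_left_cancel₀ h3 hS2
    rw [← h4] at hS
    exact_mod_cast hS
  · exfalso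
    obtain ⟨k, hk⟩ := Nat.exists_eq_add_of_lt hgt
    have heven : ∀ v : Vec r, 2 ∣ M.count v := by
      intro v
      by_cases hv : v = 0
      · have h2 : M.count v = 0 := by
          rw [hv, List.count_eq_zero]
          intro h
          exact hM.ne_zero 0 h rfl
        rw [h2]
        exact dvd_zero _
      · obtain ⟨S, hS, hS2⟩ := key v hv
        rw [hk] at hS2
        have h3 : (2 : ℤ) ^ r ≠ 0 := by positivity
        have h4 : (M.count v : ℤ) = 2 * (2 ^ k * S) := by
          apply mul_left_cancel₀ h3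
          rw [hS2]
          ring
        have h5 : (2 : ℤ) ∣ (M.count v : ℤ) := ⟨_, h4⟩
        exact_mod_cast h5
    have h2 := hM.gcd 2 heven
    omega

end Valuation

/-! ## The counterexample to the first bullet -/

/-- The list with multiplicities `3, 1, 1` in `F_2^2`. -/
def cex : List (Vec 2) := [![1, 0], ![1, 0], ![1, 0], ![0, 1], ![1, 1]]

lemma cex_odd : ∀ u ≠ 0, Odd (cex.count u) := by
  decide

lemma cex_admissible : Admissible cex where
  pos := by norm_num
  ne_zero := by decide
  span := by
    unfold Spans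
    rw [eq_top_iff]
    intro x _
    have h1 : (![1, 0] : Vec 2) ∈ Submodule.span (ZMod 2) {v | v ∈ cex} :=
      Submodule.subset_span (by simp [cex])
    have h2 : (![0, 1] : Vec 2) ∈ Submodule.span (ZMod 2) {v | v ∈ cex} :=
      Submodule.subset_span (by simp [cex])
    have h3 : x = x 0 • (![1, 0] : Vec 2) + x 1 • (![0, 1] : Vec 2) := by
      ext i
      fin_cases i <;> simp
    rw [h3]
    exact Submodule.add_mem _ (Submodule.smul_mem _ _ h1) (Submodule.smul_mem _ _ h2)
  gcd := by
    intro k hk
    have h1 : k ∣ cex.count ![0, 1] := hk _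
    have h2 : cex.count ![0, 1] = 1 := by decide
    rw [h2] at h1
    exact Nat.dvd_one.1 h1

lemma eig_cex1 : eig cex ![1, 0] = 8 := by decide

lemma eig_cex2 : eig cex ![0, 1] = 4 := by decide

lemma cex_val : padicValInt 2 (eig cex ![1, 0]) ≠ padicValInt 2 (eig cex ![0, 1]) := by
  rw [eig_cex1, eig_cex2]
  have h1 : padicValInt 2 8 = 3 := by
    have : (8 : ℤ) = ((2 ^ 3 : ℕ) : ℤ) := by norm_num
    rw [this, padicValInt.of_nat, padicValNat.prime_pow]
  have h2 : padicValInt 2 4 = 2 := by
    have : (4 : ℤ) = ((2 ^ 2 : ℕ) : ℤ) := by norm_num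
    rw [this, padicValInt.of_nat, padicValNat.prime_pow]
  rw [h1, h2]
  norm_num

/-- **Main result**: complete answer. For admissible `M`, `d(M)` is odd if some `μ_u` (`u ≠ 0`) is
even, and `d(M) = 2^r - 2` if all `μ_u` are odd; if all the valuations of the `λ_u` are
equal then `d(M) = 2^r - 2`; but there is an admissible `M` whose valuations are not all equal
and for which `d(M)` is even. -/
theorem result :
    (∀ (r : ℕ) (M : List (Vec r)), Admissible M →
      ((∃ u ≠ 0, Even (M.count u)) → Odd (dim2 M)) ∧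
      ((∀ u ≠ 0, Odd (M.count u)) → dim2 M = 2 ^ r - 2)) ∧
    (∀ (r : ℕ) (M : List (Vec r)), Admissible M →
      (∀ u ≠ 0, ∀ u' ≠ 0, padicValInt 2 (eig M u) = padicValInt 2 (eig M u')) →
      dim2 M = 2 ^ r - 2) ∧
    (∃ (r : ℕ) (M : List (Vec r)), Admissible M ∧
      (∃ u ≠ 0, ∃ u' ≠ 0, padicValInt 2 (eig M u) ≠ padicValInt 2 (eig M u')) ∧
      Even (dim2 M)) := by
  refine ⟨fun r M hM => ⟨odd_dim2 M hM, dim2_of_all_odd M hM⟩,
    fun r M hM h => dim2_of_all_odd M hM (all_odd_of_val M hM h), 2, cex, cex_admissible,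
    ⟨![1, 0], by decide, ![0, 1], by decide, cex_val⟩, ?_⟩
  rw [dim2_of_all_odd cex cex_admissible cex_odd]
  decide


end Pool.Agent.Results.MP_8ee885_co.ParityCriterion
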